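import Mathlib
import Pool.Agent.P.MP_a6ddc5_al.LC.Upper

/-!
Quasi-fixed vectors relative to a subgroup: the upper bound from the growth of the coset space.
-/

set_option autoImplicit false

open Filter Topology Set

namespace Pool.Agent.P.MP_a6ddc5_al.Sch

universe u

/-- Quasi-fixed vectors for representations with a bounded orbit of a vector fixed by `H`. -/
def QF (G : Type u) [Group G] (H : Subgroup G) (S : Finset G) (r : ℝ) : Prop :=
  ∀ (E : Type u) [AddCommGroup E] [Module ℝ E] [TopologicalSpace E] [IsTopologicalAddGroup E]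
    [ContinuousSMul ℝ E] [LocallyConvexSpace ℝ E] [T2Space E]
    (C : ConvexCone ℝ E) (ρ : G →* (E →L[ℝ] E)),
    (C : Set E) ∩ (-(C : Set E)) = {0} →
    @IsComplete E (wU E) (C : Set E) →
    (∀ g : G, ∀ x ∈ C, ρ g x ∈ C) →
    (∃ x ∈ C, x ≠ 0 ∧ Bornology.IsVonNBounded ℝ (Set.range fun g : G => ρ g x) ∧
      ∀ h ∈ H, ρ h x = x) →
    (∃ φ : E →L[ℝ] ℝ, ∀ l : E →L[ℝ] ℝ, ∃ (n : ℕ) (g : Fin n → G), ∀ x ∈ C,
      l x ≤ ∑ i, φ (ρ (g i)⁻¹ x) ∧ -l x ≤ ∑ i, φ (ρ (g i)⁻¹ x)) →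
    ∃ y ∈ C, y ≠ 0 ∧ ∀ k ∈ S, r • y - ρ k y ∈ C

/-- products of at most `n` elements of `S` -/
def bl {G : Type u} [Group G] (S : Finset G) (n : ℕ) : Set G :=
  {g | ∃ w : List G, w.length ≤ n ∧ (∀ s ∈ w, s ∈ S) ∧ w.prod = g}

variable {G : Type u} [Group G]

theorem bl_mul {S : Finset G} {a b : ℕ} {g h : G} (hg : g ∈ bl S a) (hh : h ∈ bl S b) :
    g * h ∈ bl S (a + b) := by
  obtain ⟨v, v1, v2, rfl⟩ := hg
  obtain ⟨w, w1, w2, rfl⟩ := hh
  refine ⟨v ++ w, by simp only [List.length_append]; omega, fun s hs => ?_, List.prod_append⟩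
  exact (List.mem_append.1 hs).elim (v2 s) (w2 s)

theorem bl_finite (S : Finset G) (n : ℕ) : (bl S n).Finite := by
  refine ((List.finite_length_le S n).image fun w => (w.map Subtype.val).prod).subset ?_
  rintro g ⟨w, h1, h2, rfl⟩
  exact ⟨w.attachWith _ h2, by simpa using h1, by simp⟩

theorem bl_gen {S : Finset G} (hs : ∀ s ∈ S, s⁻¹ ∈ S) (hg : Subgroup.closure (S : Set G) = ⊤)
    (g : G) : ∃ n, g ∈ bl S n := by
  have h : g ∈ (Subgroup.closure (S : Set G)).toSubmonoid := by rw [hg]; trivial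
  rw [Subgroup.closure_toSubmonoid] at h
  obtain ⟨w, h1, h2⟩ := Submonoid.exists_list_of_mem_closure h
  refine ⟨w.length, w, le_rfl, fun s h => ?_, h2⟩
  rcases h1 s h with h | h
  · exact h
  · simpa using hs _ (Set.mem_inv.1 h)

theorem bl_inv {S : Finset G} (hs : ∀ s ∈ S, s⁻¹ ∈ S) {n : ℕ} {g : G} (hg : g ∈ bl S n) :
    g⁻¹ ∈ bl S n := by
  obtain ⟨w, h1, h2, rfl⟩ := hg
  refine ⟨(w.map fun x => x⁻¹).reverse, by simpa using h1, fun s h => ?_,
    (List.prod_inv_reverse w).symm⟩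
  obtain ⟨a, ha, rfl⟩ := List.mem_map.1 (List.mem_reverse.1 h)
  exact hs a (h2 a ha)

/-- almost invariant positive forms give a quasi-fixed vector -/
theorem of_forms {E : Type u} [AddCommGroup E] [Module ℝ E] [TopologicalSpace E]
    [IsTopologicalAddGroup E] [ContinuousSMul ℝ E] [LocallyConvexSpace ℝ E] [T2Space E]
    (C : ConvexCone ℝ E) (ρ : G →* (E →L[ℝ] E)) (h0 : (0 : E) ∈ C)
    (hc : @IsComplete E (wU E) (C : Set E)) (ψ : E →L[ℝ] ℝ) (hψ0 : ∀ c ∈ C, 0 ≤ ψ c)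
    (hdom : ∀ l : E →L[ℝ] ℝ, ∃ (n : ℕ) (g : Fin n → G), ∀ c ∈ C,
      l c ≤ ∑ i, ψ (ρ (g i) c) ∧ -l c ≤ ∑ i, ψ (ρ (g i) c))
    (len : G → ℕ) {r : ℝ} (hr : 1 ≤ r) (I : ℝ → (E →L[ℝ] ℝ) → ℝ)
    (hIadd : ∀ t, r < t → ∀ l l', I t (l + l') = I t l + I t l')
    (hIsmul : ∀ t (a : ℝ) l, I t (a • l) = a * I t l)
    (hIpos : ∀ t, r < t → ∀ l : E →L[ℝ] ℝ, (∀ c ∈ C, 0 ≤ l c) → 0 ≤ I t l)
    (hIshift : ∀ t, r < t → ∀ l : E →L[ℝ] ℝ, (∀ c ∈ C, 0 ≤ l c) → ∀ γ : G,
      I t (l.comp (ρ γ)) ≤ t ^ len γ * I t l)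
    (hZ : ∀ t, r < t → 0 < I t ψ) :
    ∃ y ∈ C, y ≠ 0 ∧ ∀ k, len k ≤ 1 → r • y - ρ k y ∈ C := by
  let tt : ℕ → ℝ := fun n => r + 1 / ((n : ℝ) + 1)
  have htt : ∀ n, r < tt n := fun n => by
    have : (0 : ℝ) < 1 / ((n : ℝ) + 1) := by positivity
    simp only [tt]
    linarith
  have htt1 : ∀ n, tt n ≤ r + 1 := fun n => by
    have : 1 / ((n : ℝ) + 1) ≤ 1 := by
      rw [div_le_one (by positivity)]
      linarith [(Nat.cast_nonneg n : (0 : ℝ) ≤ n)]
    simp only [tt]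
    linarith
  let 𝒰 : Ultrafilter ℕ := hyperfilter ℕ
  have httlim : Tendsto tt 𝒰 (𝓝 r) := by
    have h1 : Tendsto tt atTop (𝓝 (r + 0)) :=
      tendsto_const_nhds.add tendsto_one_div_add_atTop_nhds_zero_nat
    rw [add_zero] at h1
    exact h1.mono_left (hyperfilter_le_cofinite.trans_eq Nat.cofinite_eq_atTop)
  have hlim : ∀ l : E →L[ℝ] ℝ, ∃ a, Tendsto (fun n => I (tt n) l / I (tt n) ψ) 𝒰 (𝓝 a) := by
    intro l
    obtain ⟨n, g, hg⟩ := hdom l
    let B : ℝ := ∑ i, (r + 1) ^ len (g i)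
    have hsum : ∀ k, I (tt k) (∑ i, ψ.comp (ρ (g i))) ≤ B * I (tt k) ψ := by
      intro k
      have h1 : ∀ s : Finset (Fin n), I (tt k) (∑ i ∈ s, ψ.comp (ρ (g i)))
          ≤ (∑ i ∈ s, (r + 1) ^ len (g i)) * I (tt k) ψ := by
        intro s
        induction s using Finset.induction_on with
        | empty =>
          have := hIsmul (tt k) 0 ψ
          simp only [zero_smul, zero_mul] at this
          simp [this]
        | insert i s hi ih =>
          rw [Finset.sum_insert hi, Finset.sum_insert hi, hIadd _ (htt k), add_mul]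
          refine add_le_add ((hIshift _ (htt k) ψ hψ0 _).trans ?_) ih
          refine mul_le_mul_of_nonneg_right ?_ (hZ _ (htt k)).le
          exact pow_le_pow_left₀ (by linarith [htt k]) (htt1 k) _
      exact h1 _
    have hmem : ∀ k, I (tt k) l / I (tt k) ψ ∈ Icc (-B) B := by
      intro k
      have h1 := hIpos _ (htt k) ((∑ i, ψ.comp (ρ (g i))) + (-1 : ℝ) • l) fun c hcC => by
        have := (hg c hcC).1
        simp only [add_apply, sum_apply,
          ContinuousLinearMap.comp_apply, smul_apply, smul_eq_mul]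
        linarith
      have h2 := hIpos _ (htt k) ((∑ i, ψ.comp (ρ (g i))) + l) fun c hcC => by
        have := (hg c hcC).2
        simp only [add_apply, sum_apply,
          ContinuousLinearMap.comp_apply]
        linarith
      rw [hIadd _ (htt k)] at h1 h2
      rw [hIsmul] at h1
      have h3 := hsum k
      constructor
      · rw [le_div_iff₀ (hZ _ (htt k))]
        linarith
      · rw [div_le_iff₀ (hZ _ (htt k))]
        linarith
    obtain ⟨a, -, ha⟩ := (isCompact_Icc (a := -B) (b := B)).ultrafilter_le_nhds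
      (𝒰.map fun k => I (tt k) l / I (tt k) ψ) (by
        rw [le_principal_iff]
        exact Filter.mem_map.2 (Eventually.of_forall hmem))
    exact ⟨a, ha⟩
  choose L0 hL0 using hlim
  let L : (E →L[ℝ] ℝ) →ₗ[ℝ] ℝ :=
    { toFun := L0
      map_add' := fun l l' => by
        refine tendsto_nhds_unique (hL0 (l + l')) ?_
        refine ((hL0 l).add (hL0 l')).congr fun k => ?_
        rw [hIadd _ (htt k), add_div]
      map_smul' := fun a l => by
        refine tendsto_nhds_unique (hL0 (a • l)) ?_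
        refine ((hL0 l).const_mul a).congr fun k => ?_
        rw [hIsmul, mul_div_assoc] }
  have hLpos : ∀ l : E →L[ℝ] ℝ, (∀ c ∈ C, 0 ≤ l c) → 0 ≤ L l := fun l hl =>
    ge_of_tendsto' (hL0 l) fun k => div_nonneg (hIpos _ (htt k) l hl) (hZ _ (htt k)).le
  have hLψ : L ψ = 1 := by
    refine tendsto_nhds_unique (hL0 ψ) ?_
    refine tendsto_const_nhds.congr fun k => ?_
    rw [div_self (hZ _ (htt k)).ne']
  have hLshift : ∀ k, len k ≤ 1 → ∀ l : E →L[ℝ] ℝ, (∀ c ∈ C, 0 ≤ l c) →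
      L (l.comp (ρ k)) ≤ r * L l := by
    intro k hk l hl
    refine le_of_tendsto_of_tendsto' (hL0 _) (httlim.mul (hL0 l)) fun n => ?_
    rw [← mul_div_assoc]
    refine div_le_div_of_nonneg_right ((hIshift _ (htt n) l hl k).trans ?_) (hZ _ (htt n)).le
    refine mul_le_mul_of_nonneg_right ?_ (hIpos _ (htt n) l hl)
    calc tt n ^ len k ≤ tt n ^ 1 := pow_le_pow_right₀ (by linarith [htt n]) hk
      _ = tt n := pow_one _
  obtain ⟨y, hyC, hy⟩ := LC.exists_rep C h0 hc L hLpos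
  refine ⟨y, hyC, fun h => ?_, fun k hk => ?_⟩
  · have := hy ψ
    rw [h, map_zero, hLψ] at this
    exact zero_ne_one this
  · let L' : (E →L[ℝ] ℝ) →ₗ[ℝ] ℝ :=
      { toFun := fun l => l (r • y - ρ k y)
        map_add' := fun _ _ => rfl
        map_smul' := fun _ _ => rfl }
    obtain ⟨z, hzC, hz⟩ := LC.exists_rep C h0 hc L' fun l hl => by
      have h1 := hLshift k hk l hl
      rw [← hy, ← hy] at h1
      simp only [L', LinearMap.coe_mk, AddHom.coe_mk, map_sub, map_smul, smul_eq_mul]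
      simp only [ContinuousLinearMap.comp_apply] at h1
      linarith
    have : z = r • y - ρ k y := (SeparatingDual.eq_iff_forall_dual_eq (R := ℝ)).2 hz
    rwa [← this]

theorem summable_weight {X : Type*} (d : X → ℕ) (B : ℕ → Set X) (hB : ∀ n, (B n).Finite)
    (hd : ∀ v, v ∈ B (d v)) {A s t : ℝ} (hs : 0 < s) (hst : s < t)
    (hA : ∀ n, ((B n).ncard : ℝ) ≤ A * s ^ n) : Summable fun v => t⁻¹ ^ d v := by
  classical
  have ht : 0 < t := hs.trans hst
  have hA0 : 0 ≤ A := by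
    have := hA 0
    simp only [pow_zero, mul_one] at this
    exact (Nat.cast_nonneg _).trans this
  have hsum : Summable fun n : ℕ => A * (s / t) ^ n :=
    (summable_geometric_of_lt_one (by positivity) ((div_lt_one ht).2 hst)).mul_left A
  refine summable_of_sum_le (c := ∑' n : ℕ, A * (s / t) ^ n) (fun v => by positivity) fun F => ?_
  rw [Finset.sum_comp (fun n => t⁻¹ ^ n) d]
  refine le_trans (Finset.sum_le_sum fun n _ => ?_)
    (hsum.sum_le_tsum (F.image d) fun n _ => by positivity)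
  have h1 : (F.filter fun a => d a = n).card ≤ (B n).ncard := by
    rw [← Set.ncard_coe_finset]
    refine Set.ncard_le_ncard (fun v hv => ?_) (hB n)
    have := (Finset.mem_filter.1 hv).2
    exact this ▸ hd v
  have h2 : ((F.filter fun a => d a = n).card : ℝ) ≤ A * s ^ n :=
    le_trans (by exact_mod_cast h1) (hA n)
  rw [nsmul_eq_mul]
  calc _ ≤ A * s ^ n * t⁻¹ ^ n := by gcongr
    _ = A * (s / t) ^ n := by rw [div_eq_mul_inv, mul_pow]; ring

theorem qf_of_growth (H : Subgroup G) {S : Finset G} (hs : ∀ s ∈ S, s⁻¹ ∈ S)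
    (hg : Subgroup.closure (S : Set G) = ⊤) {r : ℝ} (hr : 1 ≤ r)
    (hgr : ∀ t, r < t → ∃ A : ℝ, ∀ n,
      (((fun g : G => (g : G ⧸ H)) '' bl S n).ncard : ℝ) ≤ A * t ^ n) : QF G H S r := by
  intro E _ _ _ _ _ _ _ C ρ hprop hc hinv ⟨x, hxC, hx0, hxb, hxH⟩ ⟨φ, hφ⟩
  have h0 : (0 : E) ∈ C := by
    have : (0 : E) ∈ (C : Set E) ∩ (-(C : Set E)) := by rw [hprop]; rfl
    exact this.1
  obtain ⟨n0, g0, hg0⟩ := hφ φ
  let ψ : E →L[ℝ] ℝ := ∑ i, φ.comp (ρ (g0 i)⁻¹)
  have hψ : ∀ c, ψ c = ∑ i, φ (ρ (g0 i)⁻¹ c) := fun c => by simp [ψ]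
  have hψ0 : ∀ c ∈ C, 0 ≤ ψ c := fun c hcC => by
    have := hg0 c hcC
    rw [hψ]
    linarith [this.1, this.2]
  have hdom : ∀ l : E →L[ℝ] ℝ, ∃ (n : ℕ) (g : Fin n → G), ∀ c ∈ C,
      l c ≤ ∑ i, ψ (ρ (g i) c) ∧ -l c ≤ ∑ i, ψ (ρ (g i) c) := by
    intro l
    obtain ⟨n, g, hg⟩ := hφ l
    refine ⟨n, fun i => (g i)⁻¹, fun c hcC => ?_⟩
    have h1 : ∑ i, φ (ρ (g i)⁻¹ c) ≤ ∑ i, ψ (ρ (g i)⁻¹ c) :=
      Finset.sum_le_sum fun i _ => by rw [hψ]; exact (hg0 _ (hinv _ _ hcC)).1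
    exact ⟨(hg c hcC).1.trans h1, (hg c hcC).2.trans h1⟩
  have hbd : ∀ l : E →L[ℝ] ℝ, ∃ M, ∀ g, ‖l (ρ g x)‖ ≤ M := by
    intro l
    have h1 := hxb.image l
    rw [NormedSpace.isVonNBounded_iff, isBounded_iff_forall_norm_le] at h1
    obtain ⟨M, hM⟩ := h1
    exact ⟨M, fun g => hM _ ⟨_, ⟨g, rfl⟩, rfl⟩⟩
  have hmul : ∀ a b : G, ρ a (ρ b x) = ρ (a * b) x := fun a b => by rw [map_mul]; rfl
  let o : G ⧸ H → E := fun v => ρ v.out x
  have ho : ∀ g : G, o (g : G ⧸ H) = ρ g x := fun g => by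
    obtain ⟨h, e⟩ := QuotientGroup.mk_out_eq_mul H g
    simp only [o]
    rw [e, ← hmul, hxH _ h.2]
  have hos : ∀ (γ : G) v, ρ γ (o v) = o (γ • v) := fun γ v => by
    induction v using QuotientGroup.induction_on with
    | H g => rw [MulAction.Quotient.smul_mk, ho, ho, hmul, smul_eq_mul]
  have hoC : ∀ v, o v ∈ C := fun v => hinv _ _ hxC
  let len : G → ℕ := fun g => sInf {n | g ∈ bl S n}
  have hlen : ∀ g, g ∈ bl S (len g) := fun g => Nat.sInf_mem (s := {n | g ∈ bl S n}) (bl_gen hs hg g)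
  let B : ℕ → Set (G ⧸ H) := fun n => (fun g : G => (g : G ⧸ H)) '' bl S n
  let d : G ⧸ H → ℕ := fun v => sInf {n | v ∈ B n}
  have hd : ∀ v, v ∈ B (d v) := fun v => Nat.sInf_mem (s := {n | v ∈ B n})
    ⟨_, v.out, hlen _, QuotientGroup.out_eq' v⟩
  have hds : ∀ (γ : G) v, d (γ • v) ≤ len γ + d v := fun γ v => by
    obtain ⟨g, h1, h2⟩ := hd v
    refine Nat.sInf_le ⟨γ * g, bl_mul (hlen γ) h1, ?_⟩
    rw [← h2, MulAction.Quotient.smul_mk, smul_eq_mul]
  have hw : ∀ t, r < t → Summable fun v => t⁻¹ ^ d v := by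
    intro t ht
    obtain ⟨s, hs1, hs2⟩ := exists_between ht
    obtain ⟨A, hA⟩ := hgr s hs1
    exact summable_weight d B (fun n => (bl_finite S n).image _) hd (by linarith) hs2 hA
  have hint : ∀ t, r < t → ∀ l : E →L[ℝ] ℝ, Summable fun v => t⁻¹ ^ d v * l (o v) := by
    intro t ht l
    obtain ⟨M, hM⟩ := hbd l
    have : 0 < t := by linarith
    refine Summable.of_norm_bounded ((hw t ht).mul_right M) fun v => ?_
    rw [norm_mul, Real.norm_of_nonneg (by positivity)]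
    exact mul_le_mul_of_nonneg_left (hM _) (by positivity)
  obtain ⟨y, h1, h2, h3⟩ := of_forms C ρ h0 hc ψ hψ0 hdom len hr
    (fun t l => ∑' v, t⁻¹ ^ d v * l (o v))
    (fun t ht l l' => by
      simp only [add_apply, mul_add]
      exact (hint t ht l).tsum_add (hint t ht l'))
    (fun t a l => by
      simp only [smul_apply, smul_eq_mul]
      rw [← tsum_mul_left]
      exact tsum_congr fun v => by ring)
    (fun t ht l hl => by
      have : 0 < t := by linarith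
      exact tsum_nonneg fun v => mul_nonneg (by positivity) (hl _ (hoC v)))
    (fun t ht l hl γ => by
      have ht1 : 1 ≤ t := by linarith
      have ht0 : 0 < t := by linarith
      rw [← (MulAction.toPerm γ).tsum_eq fun v => t⁻¹ ^ d v * l (o v), ← tsum_mul_left]
      refine (hint t ht _).tsum_le_tsum (fun v => ?_)
        (((MulAction.toPerm γ).summable_iff.2 (hint t ht l)).mul_left _)
      simp only [ContinuousLinearMap.comp_apply, MulAction.toPerm_apply]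
      rw [hos, ← mul_assoc]
      refine mul_le_mul_of_nonneg_right ?_ (hl _ (hoC _))
      have h4 : t⁻¹ ^ (len γ + d v) ≤ t⁻¹ ^ d (γ • v) :=
        pow_le_pow_of_le_one (by positivity) (inv_le_one_of_one_le₀ ht1) (hds γ v)
      calc t⁻¹ ^ d v = t ^ len γ * t⁻¹ ^ (len γ + d v) := by
            rw [pow_add, ← mul_assoc, ← mul_pow, mul_inv_cancel₀ ht0.ne', one_pow, one_mul]
        _ ≤ _ := by gcongr)
    (fun t ht => by
      have ht0 : 0 < t := by linarith
      obtain ⟨l, hl⟩ := SeparatingDual.exists_ne_zero (R := ℝ) hx0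
      obtain ⟨n, g, hg⟩ := hdom l
      have h1 : ∃ γ, 0 < ψ (ρ γ x) := by
        by_contra hn
        push Not at hn
        have h2 : ∑ i, ψ (ρ (g i) x) ≤ 0 := Finset.sum_nonpos fun i _ => hn _
        have := hg x hxC
        exact hl (by linarith [this.1, this.2])
      obtain ⟨γ, hγ⟩ := h1
      exact (hint t ht ψ).tsum_pos (fun v => mul_nonneg (by positivity) (hψ0 _ (hoC v)))
        (γ : G ⧸ H) (mul_pos (by positivity) (by rwa [ho])))
  exact ⟨y, h1, h2, fun k hk => h3 k (Nat.sInf_le ⟨[k], le_rfl, by simpa using hk, by simp⟩)⟩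

theorem fixed_of_quasi {S : Finset G} (hs : ∀ s ∈ S, s⁻¹ ∈ S)
    (hg : Subgroup.closure (S : Set G) = ⊤) {E : Type u} [AddCommGroup E] [Module ℝ E]
    [TopologicalSpace E] [ContinuousAdd E] {C : ConvexCone ℝ E} {ρ : G →* (E →L[ℝ] E)}
    (hprop : (C : Set E) ∩ (-(C : Set E)) = {0}) (hinv : ∀ g : G, ∀ x ∈ C, ρ g x ∈ C) {y : E}
    (hy : ∀ k ∈ S, (1 : ℝ) • y - ρ k y ∈ C) (g : G) : ρ g y = y := by
  have hk : ∀ k ∈ S, ρ k y = y := by
    intro k hk
    have h1 := hy k hk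
    have h2 := hinv k _ (hy k⁻¹ (hs k hk))
    have h3 : ρ k (ρ k⁻¹ y) = y := by
      rw [← mul_apply_eq_comp, ← map_mul, mul_inv_cancel, map_one]
      rfl
    rw [one_smul] at h1
    rw [one_smul, map_sub, h3] at h2
    have h4 : y - ρ k y ∈ (C : Set E) ∩ (-(C : Set E)) := ⟨h1, by simpa using h2⟩
    rw [hprop] at h4
    exact (sub_eq_zero.1 h4).symm
  obtain ⟨n, w, -, h2, rfl⟩ := bl_gen hs hg g
  induction w with
  | nil => simp
  | cons a w ih =>
    rw [List.prod_cons, map_mul, mul_apply_eq_comp, ih fun s h => h2 s (List.mem_cons_of_mem _ h),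
      hk a (h2 a List.mem_cons_self)]

end Pool.Agent.P.MP_a6ddc5_al.Sch
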