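import Mathlib
import Pool.Agent.P.MP_a6ddc5_al.Sch.Up

/-!
Quasi-fixed vectors relative to a family of subgroups: the lower bound.  Shortlex normal forms
modulo a subgroup, record scales over the family, an ultralimit, and the cone of expanding flows.
-/

set_option autoImplicit false

open Filter Topology

namespace Pool.Agent.P.MP_a6ddc5_al.Sch

universe u

section Words

variable {α : Type*} [Fintype α]

theorem cnt_le_pow (P : List α → Prop) : ∀ (k : ℕ) (w : List α), cnt P k w ≤ Fintype.card α ^ k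
  | 0, w => by
    unfold cnt
    split_ifs <;> simp
  | k + 1, w => by
    unfold cnt
    refine (Finset.sum_le_sum fun b _ => cnt_le_pow P k _).trans ?_
    simp [pow_succ']

theorem cnt_le_of (P Q : List α → Prop) (u : List α) (h : ∀ w, P (u ++ w) → Q w) :
    ∀ (k : ℕ) (w : List α), cnt P k (u ++ w) ≤ cnt Q k w
  | 0, w => by
    unfold cnt
    by_cases a : P (u ++ w)
    · simp [a, h w a]
    · simp [a]
  | k + 1, w => by
    unfold cnt
    refine Finset.sum_le_sum fun b _ => ?_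
    rw [List.append_assoc]
    exact cnt_le_of P Q u h k _

/-- finite stages of the flow for a family of languages closed under taking suffixes -/
theorem exists_stage {ι : Type*} (P : ι → List α → Prop)
    (hsuf : ∀ i u, ∃ j, ∀ w, P i (u ++ w) → P j w) (hpre : ∀ i u w, P i (u ++ w) → P i u)
    (lam : ℝ) (hlam : 0 < lam) (h : ¬ ∃ M : ℝ, ∀ i k, (cnt (P i) k [] : ℝ) ≤ M * lam ^ k) (N : ℕ) :
    ∃ (i : ι) (m : List α → ℝ), (∀ w, m w ∈ Set.Icc (0 : ℝ) 1) ∧ m [] = 1 ∧
      (∀ w, ¬ P i w → m w = 0) ∧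
      ∀ w : List α, w.length < N → lam * m w = ∑ c : α, m (w ++ [c]) := by
  have hι : Nonempty ι := by
    by_contra n
    exact h ⟨0, fun i => absurd ⟨i⟩ n⟩
  let c : ℕ → ℕ := fun k => sSup (Set.range fun i => cnt (P i) k [])
  have hbdd : ∀ k, BddAbove (Set.range fun i => cnt (P i) k []) := fun k =>
    ⟨_, by rintro _ ⟨i, rfl⟩; exact cnt_le_pow _ _ _⟩
  have hc : ∀ k i, cnt (P i) k [] ≤ c k := fun k i => le_csSup (hbdd k) ⟨i, rfl⟩
  have hunb : ¬ ∃ M, ∀ k, (c k : ℝ) / lam ^ k ≤ M := by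
    rintro ⟨M, hM⟩
    refine h ⟨M, fun i k => ?_⟩
    have := hM k
    rw [div_le_iff₀ (by positivity)] at this
    exact le_trans (by exact_mod_cast hc k i) this
  obtain ⟨k, hNk, hpos, hrec⟩ := exists_record (fun k => (c k : ℝ) / lam ^ k)
    (fun i => by positivity) hunb N
  obtain ⟨i, hi⟩ : c k ∈ Set.range fun i => cnt (P i) k [] :=
    Nat.sSup_mem (Set.range_nonempty _) (hbdd k)
  let b : ℕ → List α → ℝ := fun k w => (cnt (P i) k w : ℝ) / lam ^ k
  refine ⟨i, fun w => if w.length ≤ k then b (k - w.length) w / ((c k : ℝ) / lam ^ k) else 0,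
    ?_, ?_, ?_, ?_⟩
  · intro w
    by_cases hw : w.length ≤ k
    · simp only [hw, if_true]
      refine ⟨div_nonneg (by positivity) hpos.le, ?_⟩
      rw [div_le_one hpos]
      refine le_trans ?_ (hrec (k - w.length) (Nat.sub_le _ _))
      obtain ⟨j, hj⟩ := hsuf i w
      have := (cnt_le_of (P i) (P j) w hj (k - w.length) []).trans (hc _ j)
      rw [List.append_nil] at this
      simp only [b]
      gcongr
    · simp [hw]
  · simp only [List.length_nil, zero_le, if_true, Nat.sub_zero, b]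
    rw [show cnt (P i) k [] = c k from hi, div_self hpos.ne']
  · intro w hw
    simp [b, cnt_eq_zero (P i) (hpre i) _ w hw]
  · intro w hw
    have hw1 : w.length ≤ k := by omega
    have hw2 : w.length + 1 ≤ k := by omega
    obtain ⟨j, hj⟩ : ∃ j, k - w.length = j + 1 := ⟨k - w.length - 1, by omega⟩
    have hj' : k - (w.length + 1) = j := by omega
    simp only [hw1, if_true, List.length_append, List.length_singleton, hw2, hj, hj']
    rw [← Finset.sum_div, ← mul_div_assoc]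
    congr 1
    simp only [b, cnt]
    rw [← Finset.sum_div]
    push_cast
    field_simp
    ring

end Words

section Normal

variable {α : Type*} {G : Type*} [Group G]

/-- shortlex-least words among those that spell the same right coset of `H` -/
def NH (gen : α → G) (H : Subgroup G) (w : List α) : Prop :=
  ∀ w', ev gen w' * (ev gen w)⁻¹ ∈ H → ¬ List.Shortlex WellOrderingRel w' w

theorem NH_suffix (gen : α → G) {H H' : Subgroup G} (u w : List α)
    (c : ∀ x, x ∈ H' → ev gen u * x * (ev gen u)⁻¹ ∈ H) (h : NH gen H (u ++ w)) : NH gen H' w :=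
  fun w' hw' hlt => h (u ++ w') (by
    rw [ev_append, ev_append]
    convert c _ hw' using 1
    group) (hlt.append_left u)

theorem NH_prefix (gen : α → G) (H : Subgroup G) (u w : List α) (h : NH gen H (u ++ w)) :
    NH gen H u :=
  fun u' hu' hlt => h (u' ++ w) (by
    rw [ev_append, ev_append]
    convert hu' using 1
    group) (shortlex_append_both hlt w)

theorem NH_unique (gen : α → G) {H : Subgroup G} {u w : List α} (hu : NH gen H u)
    (hw : NH gen H w) (h : ev gen u * (ev gen w)⁻¹ ∈ H) : u = w := by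
  rcases trichotomous_of (List.Shortlex (WellOrderingRel (α := α))) u w with h1 | h1 | h1
  · exact absurd h1 (hw u h)
  · exact h1
  · exact absurd h1 (hu w (by simpa using H.inv_mem h))

theorem exists_NH (gen : α → G) (H : Subgroup G) (w : List α) :
    ∃ u, NH gen H u ∧ ev gen u * (ev gen w)⁻¹ ∈ H ∧ u.length ≤ w.length := by
  have hwf : WellFounded (List.Shortlex (WellOrderingRel (α := α))) :=
    List.Shortlex.wf (IsWellFounded.wf)
  obtain ⟨u, hu, hmin⟩ := hwf.has_min {u | ev gen u * (ev gen w)⁻¹ ∈ H} ⟨w, by simp⟩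
  refine ⟨u, fun w' hw' => hmin w' ?_, hu, ?_⟩
  · have := H.mul_mem hw' hu
    simpa [mul_assoc] using this
  · by_contra hlt
    exact hmin w (by simp) (List.Shortlex.of_length_lt (by omega))

/-- a bounded expanding flow on the Cayley graph that is invariant under a member of the family -/
theorem exists_inv_flow [Fintype α] (gen : α → G) (sur : ∀ g, ∃ w, ev gen w = g)
    (F : Set (Subgroup G)) (conj : ∀ H ∈ F, ∀ g : G, ∃ H' ∈ F, ∀ x ∈ H', g * x * g⁻¹ ∈ H)
    (lim : ∀ K : Subgroup G, (∀ T : Finset G, ∃ H ∈ F, ∀ g ∈ T, g ∈ H ↔ g ∈ K) → ∃ H ∈ F, H ≤ K)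
    (lam : ℝ) (hlam : 0 < lam)
    (h : ¬ ∃ M : ℝ, ∀ H ∈ F, ∀ k, (cnt (NH gen H) k [] : ℝ) ≤ M * lam ^ k) :
    ∃ H ∈ F, ∃ x : G × α → ℝ, (∀ p, 0 ≤ x p ∧ x p ≤ 1) ∧ x ≠ 0 ∧
      (∀ k ∈ H, ∀ g a, x (k * g, a) = x (g, a)) ∧
      ∀ g, lam * ∑ a : α, x (g * (gen a)⁻¹, a) ≤ ∑ a : α, x (g, a) := by
  classical
  choose i mm h1 h2 h3 h4 using exists_stage (ι := F) (fun H => NH gen H.1)
    (fun H u => by
      obtain ⟨H', a, b⟩ := conj H.1 H.2 (ev gen u)
      exact ⟨⟨H', a⟩, fun w => NH_suffix gen u w b⟩)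
    (fun H => NH_prefix gen H.1) lam hlam fun ⟨M, hM⟩ => h ⟨M, fun H a => hM ⟨H, a⟩⟩
  let 𝒰 : Ultrafilter ℕ := hyperfilter ℕ
  have hU : (𝒰 : Filter ℕ) ≤ atTop := hyperfilter_le_cofinite.trans_eq Nat.cofinite_eq_atTop
  let K : Subgroup G :=
    { carrier := {g | ∀ᶠ N in (𝒰 : Filter ℕ), g ∈ (i N).1}
      mul_mem' := fun a b => (a.and b).mono fun N c => mul_mem c.1 c.2
      one_mem' := Eventually.of_forall fun N => one_mem _
      inv_mem' := fun a => a.mono fun N c => inv_mem c }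
  have hK : ∀ g, g ∈ K ↔ ∀ᶠ N in (𝒰 : Filter ℕ), g ∈ (i N).1 := fun g => Iff.rfl
  obtain ⟨H, HF, HK⟩ := lim K fun T => by
    have : ∀ᶠ N in (𝒰 : Filter ℕ), ∀ g ∈ T, g ∈ (i N).1 ↔ g ∈ K := by
      rw [Filter.eventually_all_finset]
      intro g _
      by_cases c : g ∈ K
      · exact ((hK g).1 c).mono fun N a => iff_of_true a c
      · exact (Ultrafilter.eventually_not.2 c).mono fun N a => iff_of_false a c
    obtain ⟨N, hN⟩ := this.exists
    exact ⟨_, (i N).2, hN⟩
  have hlim : ∀ w, ∃ a ∈ Set.Icc (0 : ℝ) 1, Tendsto (fun N => mm N w) 𝒰 (𝓝 a) := fun w =>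
    isCompact_Icc.ultrafilter_le_nhds (𝒰.map fun N => mm N w) (by
      rw [le_principal_iff]
      exact Filter.mem_map.2 (Eventually.of_forall fun N => h1 N w))
  choose m hm01 hm using hlim
  have hm1 : m [] = 1 := tendsto_nhds_unique (hm []) (tendsto_const_nhds.congr fun N => (h2 N).symm)
  have hm0 : ∀ w, ¬ NH gen K w → m w = 0 := fun w n => by
    simp only [NH, not_forall, not_not] at n
    obtain ⟨w', a, b⟩ := n
    exact tendsto_nhds_unique (hm w) (tendsto_const_nhds.congr' (((hK _).1 a).mono fun N c =>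
      (h3 N w fun q => q w' c b).symm))
  have hflow : ∀ w, lam * m w = ∑ c : α, m (w ++ [c]) := fun w =>
    tendsto_nhds_unique ((hm w).const_mul lam) ((tendsto_finsetSum _ fun c _ => hm _).congr'
      (((eventually_gt_atTop w.length).filter_mono hU).mono fun N a => (h4 N w a).symm))
  have ex : ∀ g, ∃ u, NH gen K u ∧ ev gen u * g⁻¹ ∈ K := fun g => by
    obtain ⟨w, rfl⟩ := sur g
    obtain ⟨u, a, b, -⟩ := exists_NH gen K w
    exact ⟨u, a, b⟩
  choose nf n1 n2 using ex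
  have nu : ∀ g u, NH gen K u → ev gen u * g⁻¹ ∈ K → nf g = u := fun g u a b =>
    NH_unique gen (n1 g) a (by simpa [mul_assoc] using K.mul_mem (n2 g) (K.inv_mem b))
  refine ⟨H, HF, fun p => m (nf p.1 ++ [p.2]), fun p => hm01 _, fun z => ?_, fun k hk g a => ?_,
    fun g => ?_⟩
  · have e : nf 1 = [] := nu 1 [] (fun w' _ => List.not_shortlex_nil_right) (by simp [ev])
    have := hflow []
    rw [hm1, Finset.sum_eq_zero fun a _ => by simpa [e] using congrFun z (1, a)] at this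
    linarith
  · have : nf (k * g) = nf g := nu _ _ (n1 g) (by
      simpa [mul_assoc] using K.mul_mem (n2 g) (K.inv_mem (HK hk)))
    simp only [this]
  · have key : ∀ a, m (nf (g * (gen a)⁻¹) ++ [a]) ≠ 0 → nf g = nf (g * (gen a)⁻¹) ++ [a] :=
      fun a q => nu _ _ (by_contra fun c => q (hm0 _ c)) (by
        rw [ev_append]
        simpa [ev, mul_assoc] using n2 (g * (gen a)⁻¹))
    simp only []
    rw [← hflow]
    refine mul_le_mul_of_nonneg_left ?_ hlam.le
    by_cases hin : ∃ a, m (nf (g * (gen a)⁻¹) ++ [a]) ≠ 0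
    · obtain ⟨a, ha⟩ := hin
      rw [Finset.sum_eq_single a, key a ha]
      · intro c _ hca
        by_contra hc
        have h3 := congrArg List.getLast? ((key c hc).symm.trans (key a ha))
        simp at h3
        exact hca h3
      · simp
    · push Not at hin
      simp only [hin, Finset.sum_const_zero]
      exact (hm01 _).1

end Normal

variable {G : Type u} [Group G]

/-- Quasi-fixed vectors, tested only on cones with a compact base in second countable spaces. -/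
def QB (G : Type u) [Group G] (H : Subgroup G) (S : Finset G) (r : ℝ) : Prop :=
  ∀ (E : Type u) [AddCommGroup E] [Module ℝ E] [TopologicalSpace E] [IsTopologicalAddGroup E]
    [ContinuousSMul ℝ E] [LocallyConvexSpace ℝ E] [T2Space E]
    (C : ConvexCone ℝ E) (ρ : G →* (E →L[ℝ] E)),
    (SecondCountableTopology E ∧ ∃ ψ : E →L[ℝ] ℝ, (∀ x ∈ C, x ≠ 0 → 0 < ψ x) ∧
      IsCompact {x | x ∈ C ∧ ψ x = 1}) →
    (C : Set E) ∩ (-(C : Set E)) = {0} →
    @IsComplete E (wU E) (C : Set E) →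
    (∀ g : G, ∀ x ∈ C, ρ g x ∈ C) →
    (∃ x ∈ C, x ≠ 0 ∧ Bornology.IsVonNBounded ℝ (Set.range fun g : G => ρ g x) ∧
      ∀ h ∈ H, ρ h x = x) →
    (∃ φ : E →L[ℝ] ℝ, ∀ l : E →L[ℝ] ℝ, ∃ (n : ℕ) (g : Fin n → G), ∀ x ∈ C,
      l x ≤ ∑ i, φ (ρ (g i)⁻¹ x) ∧ -l x ≤ ∑ i, φ (ρ (g i)⁻¹ x)) →
    ∃ y ∈ C, y ≠ 0 ∧ ∀ k ∈ S, r • y - ρ k y ∈ C

/-- smoothing: the outflow becomes logarithmically Lipschitz at a small loss of expansion -/
theorem smooth {H : Subgroup G} {α : Type*} [Fintype α] (gen : α → G) {lam mu : ℝ} (h1 : 1 < mu)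
    (h2 : mu < lam) (x : G × α → ℝ) (hx01 : ∀ p, 0 ≤ x p ∧ x p ≤ 1) (hx0 : x ≠ 0)
    (hxH : ∀ k ∈ H, ∀ g a, x (k * g, a) = x (g, a))
    (hflow : ∀ g, lam * ∑ a : α, x (g * (gen a)⁻¹, a) ≤ ∑ a : α, x (g, a)) :
    ∃ (z : G × α → ℝ) (B θ : ℝ), 0 < θ ∧ (∀ p, 0 ≤ z p ∧ z p ≤ B) ∧ z ≠ 0 ∧
      (∀ k ∈ H, ∀ g a, z (k * g, a) = z (g, a)) ∧
      (∀ g, mu * ∑ a : α, z (g * (gen a)⁻¹, a) ≤ ∑ a : α, z (g, a)) ∧
      ∀ g b, θ * ∑ a : α, z (g * gen b, a) ≤ ∑ a : α, z (g, a) := by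
  have m0 : 0 < mu := by linarith
  have l0 : 0 < lam := by linarith
  set D : ℝ := (Fintype.card α : ℝ) with hD
  have D0 : 0 ≤ D := Nat.cast_nonneg _
  set θ : ℝ := (mu⁻¹ - lam⁻¹) / (D + 1) with hθ
  have d0 : 0 < mu⁻¹ - lam⁻¹ := sub_pos.2 (inv_strictAnti₀ m0 h2)
  have θ0 : 0 < θ := by positivity
  have c1 : θ * D ≤ mu⁻¹ - lam⁻¹ := by
    rw [hθ, div_mul_eq_mul_div, div_le_iff₀ (by positivity)]
    nlinarith
  have c2 : θ * D < 1 := by
    have := inv_lt_one_of_one_lt₀ h1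
    have := inv_pos.2 l0
    linarith
  let p : ℕ → G → ℝ := fun n => Nat.rec (fun g => ∑ a, x (g, a))
    (fun _ q g => θ * ∑ a, q (g * gen a)) n
  have p0 : ∀ g, p 0 g = ∑ a, x (g, a) := fun g => rfl
  have p1 : ∀ n g, p (n + 1) g = θ * ∑ a, p n (g * gen a) := fun n g => rfl
  have pb : ∀ n g, 0 ≤ p n g ∧ p n g ≤ D * (θ * D) ^ n := fun n => by
    induction n with
    | zero =>
      refine fun g => ⟨Finset.sum_nonneg fun a _ => (hx01 _).1, ?_⟩
      refine (Finset.sum_le_sum fun a _ => (hx01 (g, a)).2).trans ?_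
      simp [hD]
    | succ n ih =>
      refine fun g => ⟨mul_nonneg θ0.le (Finset.sum_nonneg fun a _ => (ih _).1), ?_⟩
      rw [p1]
      refine (mul_le_mul_of_nonneg_left (Finset.sum_le_sum fun a _ => (ih _).2) θ0.le).trans ?_
      simp only [Finset.sum_const, Finset.card_univ, nsmul_eq_mul, ← hD]
      exact le_of_eq (by ring)
  have pH : ∀ k ∈ H, ∀ n g, p n (k * g) = p n g := fun k hk n => by
    induction n with
    | zero => exact fun g => Finset.sum_congr rfl fun a _ => hxH k hk g a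
    | succ n ih => exact fun g => by simp only [p1, mul_assoc, ih]
  have gs : Summable fun n : ℕ => D * (θ * D) ^ n :=
    (summable_geometric_of_lt_one (by positivity) c2).mul_left D
  have ps : ∀ g, Summable fun n => p n g := fun g =>
    Summable.of_nonneg_of_le (fun n => (pb n g).1) (fun n => (pb n g).2) gs
  let v : G → ℝ := fun g => ∑' n, p n g
  have v0 : ∀ g, 0 ≤ v g := fun g => tsum_nonneg fun n => (pb n g).1
  have vB : ∀ g, v g ≤ ∑' n : ℕ, D * (θ * D) ^ n := fun g =>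
    (ps g).tsum_le_tsum (fun n => (pb n g).2) gs
  have ve : ∀ g, v g = ∑ a, (x (g, a) + θ * v (g * gen a)) := fun g => by
    simp only [v]
    rw [(ps g).tsum_eq_zero_add, Finset.sum_add_distrib, ← Finset.mul_sum,
      ← Summable.tsum_finsetSum fun a _ => ps _, ← tsum_mul_left]
    rfl
  have vx : ∀ g, ∑ a, x (g, a) ≤ v g := fun g => by
    rw [ve g]
    exact Finset.sum_le_sum fun a _ => le_add_of_nonneg_right (mul_nonneg θ0.le (v0 _))
  refine ⟨fun q => x q + θ * v (q.1 * gen q.2), 1 + θ * ∑' n : ℕ, D * (θ * D) ^ n, θ, θ0,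
    fun q => ⟨add_nonneg (hx01 q).1 (mul_nonneg θ0.le (v0 _)),
      add_le_add (hx01 q).2 (mul_le_mul_of_nonneg_left (vB _) θ0.le)⟩, fun z => hx0 ?_,
    fun k hk g a => ?_, fun g => ?_, fun g b => ?_⟩
  · funext q
    have := congrFun z q
    have := mul_nonneg θ0.le (v0 (q.1 * gen q.2))
    simp only [Pi.zero_apply] at *
    linarith [(hx01 q).1]
  · simp only [hxH k hk, v, mul_assoc, pH k hk]
  · simp only [inv_mul_cancel_right]
    rw [← ve g, Finset.sum_add_distrib]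
    simp only [Finset.sum_const, Finset.card_univ, nsmul_eq_mul, ← hD]
    have a1 : ∑ a : α, x (g * (gen a)⁻¹, a) ≤ lam⁻¹ * v g := by
      rw [le_inv_mul_iff₀ l0]
      exact (hflow g).trans (vx g)
    have a2 := mul_le_mul_of_nonneg_right c1 (v0 g)
    rw [← le_inv_mul_iff₀ m0]
    nlinarith
  · simp only []
    rw [← ve (g * gen b)]
    exact (le_add_of_nonneg_left (hx01 (g, b)).1).trans (Finset.single_le_sum
      (f := fun a => x (g, a) + θ * v (g * gen a))
      (fun a _ => add_nonneg (hx01 _).1 (mul_nonneg θ0.le (v0 _))) (Finset.mem_univ b))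

/-- an invariant bounded flow that expands faster than `r` excludes quasi-fixed vectors -/
theorem not_qb {H : Subgroup G} {S : Finset G} (hs : ∀ s ∈ S, s⁻¹ ∈ S)
    (hg : Subgroup.closure (S : Set G) = ⊤) {r lam B θ : ℝ} (hlam : r < lam) (θ0 : 0 < θ)
    (x0 : G × S → ℝ) (hx01 : ∀ p, 0 ≤ x0 p ∧ x0 p ≤ B) (hx0 : x0 ≠ 0)
    (hxH : ∀ k ∈ H, ∀ g a, x0 (k * g, a) = x0 (g, a))
    (hflow : ∀ g, lam * ∑ a : S, x0 (g * (a : G)⁻¹, a) ≤ ∑ a : S, x0 (g, a))
    (hlip : ∀ g (b : S), θ * ∑ a : S, x0 (g * b, a) ≤ ∑ a : S, x0 (g, a)) : ¬ QB G H S r := by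
  intro hG
  let C : ConvexCone ℝ (G × S → ℝ) :=
    { carrier := {x | (∀ p, 0 ≤ x p) ∧
        (∀ g, lam * ∑ a : S, x (g * (a : G)⁻¹, a) ≤ ∑ a : S, x (g, a)) ∧
        ∀ g (b : S), θ * ∑ a : S, x (g * b, a) ≤ ∑ a : S, x (g, a)}
      smul_mem' := by
        rintro c hc x ⟨h1, h2, h3⟩
        refine ⟨fun p => mul_nonneg hc.le (h1 p), fun g => ?_, fun g b => ?_⟩ <;>
          simp only [Pi.smul_apply, smul_eq_mul, ← Finset.mul_sum]
        · nlinarith [h2 g]
        · nlinarith [h3 g b]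
      add_mem' := by
        rintro x ⟨h1, h2, h5⟩ y ⟨h3, h4, h6⟩
        refine ⟨fun p => add_nonneg (h1 p) (h3 p), fun g => ?_, fun g b => ?_⟩ <;>
          simp only [Pi.add_apply, Finset.sum_add_distrib]
        · nlinarith [h2 g, h4 g]
        · nlinarith [h5 g b, h6 g b] }
  have hC : ∀ x, x ∈ C ↔ (∀ p, 0 ≤ x p) ∧
      (∀ g, lam * ∑ a : S, x (g * (a : G)⁻¹, a) ≤ ∑ a : S, x (g, a)) ∧
      ∀ g (b : S), θ * ∑ a : S, x (g * b, a) ≤ ∑ a : S, x (g, a) := fun x => Iff.rfl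
  let ρ : G →* ((G × S → ℝ) →L[ℝ] (G × S → ℝ)) :=
    { toFun := fun h => ContinuousLinearMap.pi fun p => ContinuousLinearMap.proj (h⁻¹ * p.1, p.2)
      map_one' := by ext x p; simp
      map_mul' := by intro a b; ext x p; simp [mul_assoc] }
  have hρ : ∀ h x p, ρ h x p = x (h⁻¹ * p.1, p.2) := fun _ _ _ => rfl
  let φ : (G × S → ℝ) →L[ℝ] ℝ := ∑ a : S, ContinuousLinearMap.proj (1, a)
  have hφ1 : ∀ x, φ x = ∑ a : S, x (1, a) := fun x => by
    simp only [φ, sum_apply, ContinuousLinearMap.proj_apply]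
  have hφ : ∀ g x, φ (ρ g⁻¹ x) = ∑ a : S, x (g, a) := by
    intro g x
    simp only [hφ1, hρ, inv_inv, mul_one]
  have hcl : IsClosed (C : Set (G × S → ℝ)) := by
    have : (C : Set (G × S → ℝ)) = (⋂ p, {x | 0 ≤ x p}) ∩
        ((⋂ g, {x | lam * ∑ a : S, x (g * (a : G)⁻¹, a) ≤ ∑ a : S, x (g, a)}) ∩
        ⋂ g, ⋂ b : S, {x | θ * ∑ a : S, x (g * b, a) ≤ ∑ a : S, x (g, a)}) := by
      ext x
      simp only [SetLike.mem_coe, hC, Set.mem_inter_iff, Set.mem_iInter, Set.mem_ofPred_eq]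
    rw [this]
    exact (isClosed_iInter fun p => isClosed_le continuous_const (continuous_apply p)).inter
      ((isClosed_iInter fun g => isClosed_le (by fun_prop) (by fun_prop)).inter
        (isClosed_iInter fun g => isClosed_iInter fun b => isClosed_le (by fun_prop) (by fun_prop)))
  have dom : ∀ p : G × S, ∃ M, ∀ x ∈ C, x p ≤ M * φ x := by
    rintro ⟨g, a⟩
    have : ∃ M, ∀ x ∈ C, ∑ a : S, x (g, a) ≤ M * φ x := by
      obtain ⟨n, w, -, hw, rfl⟩ := bl_gen hs hg g
      induction w using List.reverseRecOn with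
      | nil => exact ⟨1, fun x _ => by simp only [hφ1, List.prod_nil, one_mul, le_refl]⟩
      | append_singleton w k ih =>
        obtain ⟨M, hM⟩ := ih fun s h => hw s (List.mem_append_left _ h)
        refine ⟨θ⁻¹ * M, fun x hx => ?_⟩
        rw [mul_assoc, le_inv_mul_iff₀ θ0, List.prod_append, List.prod_singleton]
        exact (((hC x).1 hx).2.2 w.prod ⟨k, hw k (by simp)⟩).trans (hM x hx)
    obtain ⟨M, hM⟩ := this
    exact ⟨M, fun x hx => (Finset.single_le_sum (f := fun a => x (g, a))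
      (fun a _ => ((hC x).1 hx).1 _) (Finset.mem_univ a)).trans (hM x hx)⟩
  choose M hM using dom
  have pos : ∀ x ∈ C, x ≠ 0 → 0 < φ x := fun x hx n => by
    have h1 := ((hC x).1 hx).1
    refine lt_of_le_of_ne (by rw [hφ1]; exact Finset.sum_nonneg fun a _ => h1 _) fun e => n ?_
    funext p
    exact le_antisymm (by simpa [← e] using hM p x hx) (h1 p)
  refine (hG (G × S → ℝ) C ρ ⟨?_, φ, pos, ?_⟩ ?_ ?_ ?_ ?_ ?_).elim ?_
  rotate_right
  · rintro x ⟨hxC, hxne, hq⟩
    have h1 := ((hC x).1 hxC).1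
    have lip : ∀ k ∈ S, ∀ g a, x (k * g, a) ≤ r * x (g, a) := fun k hk g a => by
      have := ((hC _).1 (hq k⁻¹ (hs k hk))).1 (g, a)
      simp only [Pi.sub_apply, Pi.smul_apply, smul_eq_mul, hρ, inv_inv] at this
      linarith
    have h2 := ((hC x).1 hxC).2.1 1
    have h3 : ∑ a : S, x (1, a) ≤ r * ∑ a : S, x (1 * (a : G)⁻¹, a) := by
      rw [Finset.mul_sum]
      exact Finset.sum_le_sum fun a _ => by simpa using lip a a.2 (a : G)⁻¹ a
    have h4 : 0 ≤ ∑ a : S, x (1 * (a : G)⁻¹, a) := Finset.sum_nonneg fun a _ => h1 _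
    have h6 : ∑ a : S, x (1 * (a : G)⁻¹, a) = 0 := by nlinarith
    have := pos x hxC hxne
    rw [h6] at h3
    rw [hφ1] at this
    linarith
  · have : Countable G := Set.countable_univ_iff.1
      ((Set.countable_iUnion fun n => (bl_finite S n).countable).mono fun g _ =>
        Set.mem_iUnion.2 (bl_gen hs hg g))
    infer_instance
  · refine (isCompact_univ_pi fun p => isCompact_Icc (a := (0 : ℝ)) (b := M p)).of_isClosed_subset
      (hcl.inter (isClosed_eq φ.continuous continuous_const)) ?_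
    rintro x ⟨hx, e⟩ p -
    exact ⟨((hC x).1 hx).1 p, by simpa [e] using hM p x hx⟩
  · ext x
    simp only [Set.mem_inter_iff, Set.mem_neg, SetLike.mem_coe, Set.mem_singleton_iff, hC]
    constructor
    · rintro ⟨⟨h1, -⟩, ⟨h2, -⟩⟩
      funext p
      have := h2 p
      simp only [Pi.neg_apply] at this
      exact le_antisymm (by simpa using this) (h1 p)
    · rintro rfl
      simp
  · rw [wU_pi]
    exact hcl.isComplete
  · intro h x hx
    rw [hC] at hx ⊢
    refine ⟨fun p => hx.1 _, fun g => ?_, fun g b => ?_⟩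
    · simpa only [hρ, mul_assoc] using hx.2.1 (h⁻¹ * g)
    · simpa only [hρ, mul_assoc] using hx.2.2 (h⁻¹ * g) b
  · refine ⟨x0, ⟨fun p => (hx01 p).1, hflow, hlip⟩, hx0, ?_, fun h hh => funext fun p =>
      hxH _ (H.inv_mem hh) _ _⟩
    rw [Bornology.isVonNBounded_pi_iff]
    intro p
    rw [NormedSpace.isVonNBounded_iff]
    refine (Metric.isBounded_Icc (0 : ℝ) B).subset ?_
    rintro _ ⟨_, ⟨g, rfl⟩, rfl⟩
    exact hx01 _
  · refine ⟨φ, fun l => ?_⟩
    have hl : (l : (G × S → ℝ) →ₗ[ℝ] ℝ) ∈ Submodule.span ℝ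
        (Set.range fun p : G × S => (LinearMap.proj p : (G × S → ℝ) →ₗ[ℝ] ℝ)) :=
      (LinearMap.mem_span_iff_continuous _).2 l.continuous
    have φ0 : ∀ x ∈ C, 0 ≤ φ x := fun x hx => by
      rw [hφ1]; exact Finset.sum_nonneg fun a _ => ((hC x).1 hx).1 _
    have key : ∀ l' ∈ Submodule.span ℝ
        (Set.range fun p : G × S => (LinearMap.proj p : (G × S → ℝ) →ₗ[ℝ] ℝ)),
        ∃ A, ∀ x ∈ C, |l' x| ≤ A * φ x := by
      intro l' hl'
      induction hl' using Submodule.span_induction with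
      | mem l' h =>
        obtain ⟨p, rfl⟩ := h
        refine ⟨M p, fun x hx => ?_⟩
        rw [LinearMap.proj_apply, abs_of_nonneg (((hC x).1 hx).1 _)]
        exact hM p x hx
      | zero => exact ⟨0, fun x _ => by simp⟩
      | add l1 l2 _ _ h1 h2 =>
        obtain ⟨g1, h1⟩ := h1
        obtain ⟨g2, h2⟩ := h2
        refine ⟨g1 + g2, fun x hx => ?_⟩
        rw [add_mul, LinearMap.add_apply]
        exact (abs_add_le _ _).trans (add_le_add (h1 x hx) (h2 x hx))
      | smul c l1 _ h1 =>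
        obtain ⟨g1, h1⟩ := h1
        refine ⟨|c| * g1, fun x hx => ?_⟩
        rw [LinearMap.smul_apply, smul_eq_mul, abs_mul, mul_assoc]
        exact mul_le_mul_of_nonneg_left (h1 x hx) (abs_nonneg _)
    obtain ⟨A, hA⟩ := key _ hl
    obtain ⟨N, hN⟩ := exists_nat_ge A
    refine ⟨N, fun _ => 1, fun x hx => ?_⟩
    have := abs_le.1 ((hA x hx).trans (mul_le_mul_of_nonneg_right hN (φ0 x hx)))
    simp only [hφ, ← hφ1, Finset.sum_const, Finset.card_univ, Fintype.card_fin, nsmul_eq_mul]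
    exact ⟨this.2, by have := this.1; simp only [ContinuousLinearMap.coe_coe] at this; linarith⟩

theorem ball_le (H : Subgroup G) {S : Finset G} (hs : ∀ s ∈ S, s⁻¹ ∈ S) (n : ℕ) :
    ((fun g : G => (g : G ⧸ H)) '' bl S n).ncard ≤
      ∑ k ∈ Finset.range (n + 1), cnt (NH (fun a : S => (a : G)) H) k [] := by
  classical
  have sub : (fun g : G => (g : G ⧸ H)) '' bl S n ⊆ ((Finset.range (n + 1)).biUnion fun k =>
      (ext (NH (fun a : S => (a : G)) H) k []).image
        (fun u => (((ev (fun a : S => (a : G)) u)⁻¹ : G) : G ⧸ H)) : Finset (G ⧸ H)) := by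
    rintro _ ⟨g, hg, rfl⟩
    obtain ⟨w, hlen, hw, e⟩ := bl_inv hs hg
    obtain ⟨v, hv, hev, hvl⟩ := exists_NH (fun a : S => (a : G)) H (w.attachWith _ hw)
    simp only [Finset.coe_biUnion, Finset.coe_range, Finset.coe_image, Set.mem_iUnion]
    refine ⟨v.length, ?_, v, ?_, ?_⟩
    · simp only [List.length_attachWith] at hvl
      simp only [Set.mem_Iio]
      omega
    · simpa using mem_ext _ v [] (by simpa using hv)
    · have e' : ev (fun a : S => (a : G)) (w.attachWith _ hw) = g⁻¹ := by simpa [ev] using e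
      rw [e', inv_inv] at hev
      exact QuotientGroup.eq.2 (by rwa [inv_inv])
  have h1 := Set.ncard_le_ncard sub (Finset.finite_toSet _)
  rw [Set.ncard_coe_finset] at h1
  exact h1.trans (Finset.card_biUnion_le.trans (Finset.sum_le_sum fun k _ =>
    Finset.card_image_le.trans (card_ext_le _ k [])))

theorem growth_of_qb {S : Finset G} (hs : ∀ s ∈ S, s⁻¹ ∈ S)
    (hg : Subgroup.closure (S : Set G) = ⊤) (F : Set (Subgroup G))
    (conj : ∀ H ∈ F, ∀ g : G, ∃ H' ∈ F, ∀ x ∈ H', g * x * g⁻¹ ∈ H)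
    (lim : ∀ K : Subgroup G, (∀ T : Finset G, ∃ H ∈ F, ∀ g ∈ T, g ∈ H ↔ g ∈ K) → ∃ H ∈ F, H ≤ K)
    {r : ℝ} (hr : 1 ≤ r) (hQ : ∀ H ∈ F, QB G H S r) (t : ℝ) (ht : r < t) :
    ∃ A : ℝ, ∀ H ∈ F, ∀ n, (((fun g : G => (g : G ⧸ H)) '' bl S n).ncard : ℝ) ≤ A * t ^ n := by
  obtain ⟨lam, h1, h2⟩ := exists_between ht
  have l0 : 0 < lam := by linarith
  have t0 : 0 < t := by linarith
  obtain ⟨M, hM⟩ : ∃ M : ℝ, ∀ H ∈ F, ∀ k,
      (cnt (NH (fun a : S => (a : G)) H) k [] : ℝ) ≤ M * lam ^ k := by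
    by_contra h
    obtain ⟨H, HF, x, a1, a2, a3, a4⟩ := exists_inv_flow (fun a : S => (a : G)) (fun g => by
      obtain ⟨n, w, -, hw, e⟩ := bl_gen hs hg g
      exact ⟨w.attachWith _ hw, by simpa [ev] using e⟩) F conj lim lam l0 h
    obtain ⟨mu, m1, m2⟩ := exists_between h1
    obtain ⟨z, B, θ, b0, b1, b2, b3, b4, b5⟩ := smooth (H := H) (fun a : S => (a : G))
      (hr.trans_lt m1) m2 x a1 a2 a3 a4
    exact not_qb hs hg m1 b0 z b1 b2 b3 b4 b5 (hQ H HF)
  have hq0 : 0 ≤ lam / t := by positivity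
  have hq1 : lam / t < 1 := (div_lt_one t0).2 h2
  refine ⟨M * (1 - lam / t)⁻¹, fun H HF n => ?_⟩
  have hM0 : 0 ≤ M := by
    have := hM H HF 0
    simp only [pow_zero, mul_one] at this
    exact (Nat.cast_nonneg _).trans this
  calc (((fun g : G => (g : G ⧸ H)) '' bl S n).ncard : ℝ)
      ≤ ∑ k ∈ Finset.range (n + 1), (cnt (NH (fun a : S => (a : G)) H) k [] : ℝ) := by
        exact_mod_cast ball_le H hs n
    _ ≤ ∑ k ∈ Finset.range (n + 1), M * (lam / t) ^ k * t ^ n := by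
        refine Finset.sum_le_sum fun k hk => (hM H HF k).trans ?_
        have hk' : k ≤ n := by simp only [Finset.mem_range] at hk; omega
        calc M * lam ^ k = M * (lam / t) ^ k * t ^ k := by rw [div_pow]; field_simp
          _ ≤ _ := by gcongr; linarith
    _ = M * (∑ k ∈ Finset.range (n + 1), (lam / t) ^ k) * t ^ n := by
        rw [← Finset.sum_mul, ← Finset.mul_sum]
    _ ≤ M * (1 - lam / t)⁻¹ * t ^ n := by
        gcongr
        rw [← tsum_geometric_of_lt_one hq0 hq1]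
        exact (summable_geometric_of_lt_one hq0 hq1).sum_le_tsum _ fun k _ => by positivity

end Pool.Agent.P.MP_a6ddc5_al.Sch
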